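import Mathlib

/-!
# Iterated function systems whose attractor is approximated at any given power

For every exponent `s > 0` there is a finite family of similarities of `ℝ` with one common ratio
`r < 1`, with attractor an interval `X`, and a point `z ∈ X` such that **every** `x ∈ X` satisfies
`|x - φ_a(z)| ≤ Diam(X_a)^s` for infinitely many words `a`.
-/

open Set Filter Topology

namespace Pool.Agent.Results.MP_521650_an.FullApproximation

/-- `φ_a = φ_{a_1} ∘ ⋯ ∘ φ_{a_n}` for a finite word `a`. -/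
def wordMap {l : ℕ} (φ : Fin l → ℝ → ℝ) : List (Fin l) → ℝ → ℝ
  | [] => id
  | i :: a => φ i ∘ wordMap φ a

/-- An iterated function system on `ℝ`: at least two injective contractions. -/
def IsIFS {l : ℕ} (φ : Fin l → ℝ → ℝ) : Prop :=
  2 ≤ l ∧ ∀ i, Function.Injective (φ i) ∧ ∃ K : NNReal, K < 1 ∧ LipschitzWith K (φ i)

/-- `X` is the attractor: nonempty, compact and `X = ⋃ φ_i(X)`. -/
def IsAttractor {l : ℕ} (φ : Fin l → ℝ → ℝ) (X : Set ℝ) : Prop :=
  X.Nonempty ∧ IsCompact X ∧ X = ⋃ i, φ i '' X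

/-- `W_s(z)`: the points `x` with `|x - φ_a(z)| ≤ Diam(X_a)^s` for infinitely many words `a`. -/
def W {l : ℕ} (φ : Fin l → ℝ → ℝ) (X : Set ℝ) (z s : ℝ) : Set ℝ :=
  {x | {a : List (Fin l) | |x - wordMap φ a z| ≤ Metric.diam (wordMap φ a '' X) ^ s}.Infinite}

section construction

variable (N : ℕ)

/-- the number `L = N (N + 1)` -/
def LL : ℕ := (N + 1) * N

/-- the ratio `N / (N + 1)` -/
noncomputable def r : ℝ := N / (N + 1)

/-- the maps `x ↦ r x + d`, `0 ≤ d ≤ L`, and `x ↦ (N + 1) L - r x` -/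
noncomputable def phi (i : Fin (LL N + 2)) (x : ℝ) : ℝ :=
  if (i : ℕ) ≤ LL N then r N * x + (i : ℕ) else (N + 1) * LL N - r N * x

/-- the interval `[0, (N + 1) L]` -/
def XX : Set ℝ := Icc 0 ((N + 1) * LL N)

variable {N}

lemma phi_of_le {i : Fin (LL N + 2)} (h : (i : ℕ) ≤ LL N) (x : ℝ) :
    phi N i x = r N * x + (i : ℕ) := by
  unfold phi; rw [if_pos h]

lemma r_pos (hN : 1 ≤ N) : 0 < r N := by
  unfold r
  have : (1 : ℝ) ≤ N := by exact_mod_cast hN
  positivity

lemma r_lt : r N < 1 := by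
  unfold r
  rw [div_lt_one (by positivity)]
  linarith

lemma phi_sub (i : Fin (LL N + 2)) (x y : ℝ) : |phi N i x - phi N i y| = |r N| * |x - y| := by
  unfold phi
  split_ifs
  · rw [show r N * x + (i : ℕ) - (r N * y + (i : ℕ)) = r N * (x - y) by ring, abs_mul]
  · rw [show (N + 1 : ℝ) * LL N - r N * x - ((N + 1) * LL N - r N * y) = - (r N * (x - y)) by ring,
      abs_neg, abs_mul]

lemma word_sub (a : List (Fin (LL N + 2))) (x y : ℝ) :
    |wordMap (phi N) a x - wordMap (phi N) a y| = |r N| ^ a.length * |x - y| := by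
  induction a with
  | nil => simp [wordMap]
  | cons i a ih =>
    simp only [wordMap, Function.comp_apply, List.length_cons]
    rw [phi_sub, ih, pow_succ]
    ring

lemma wordMap_append {l : ℕ} (φ : Fin l → ℝ → ℝ) (a b : List (Fin l)) (x : ℝ) :
    wordMap φ (a ++ b) x = wordMap φ a (wordMap φ b x) := by
  induction a with
  | nil => simp [wordMap]
  | cons i a ih => simp [wordMap, ih]

/-- all letters of the word are digits `≤ N` or `≤ L`: the word acts as `x ↦ r^n x + c`. -/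
lemma word_affine (a : List (Fin (LL N + 2))) (ha : ∀ i ∈ a, (i : ℕ) ≤ LL N) (x : ℝ) :
    wordMap (phi N) a x = r N ^ a.length * x + wordMap (phi N) a 0 := by
  induction a with
  | nil => simp [wordMap]
  | cons i a ih =>
    have h1 : (i : ℕ) ≤ LL N := ha i (by simp)
    have h2 := ih (fun j hj => ha j (by simp [hj]))
    simp only [wordMap, Function.comp_apply, List.length_cons]
    rw [phi_of_le h1, phi_of_le h1, h2, pow_succ]
    ring

/-- every integer multiple of `(N+1)^{-n}` in `[N², L]` is the value of a word of length `n+1`. -/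
lemma exists_word (n : ℕ) : ∀ m : ℤ, (N : ℤ) ^ 2 * (((N : ℤ) + 1) ^ n - (N : ℤ) ^ n) ≤ m →
    m ≤ (LL N : ℤ) * ((N : ℤ) + 1) ^ n →
    ∃ a : List (Fin (LL N + 2)), a.length = n + 1 ∧ (∀ i ∈ a, (i : ℕ) ≤ LL N) ∧
      wordMap (phi N) a 0 = (m : ℝ) / ((N : ℝ) + 1) ^ n := by
  induction n with
  | zero =>
    intro m h1 h2
    simp only [pow_zero, sub_self, mul_zero, mul_one] at h1 h2
    obtain ⟨k, rfl⟩ := Int.eq_ofNat_of_zero_le h1
    have hk : k ≤ LL N := by exact_mod_cast h2
    refine ⟨[⟨k, by omega⟩], rfl, ?_, ?_⟩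
    · intro i hi
      simp only [List.mem_singleton] at hi
      subst hi
      exact hk
    · simp only [wordMap, Function.comp_apply, id]
      rw [phi_of_le (by exact hk)]
      simp
  | succ n ih =>
    intro m h1 h2
    -- the last digit
    have hcop : IsCoprime ((N : ℤ) ^ (n + 1)) ((N : ℤ) + 1) := by
      apply IsCoprime.pow_left
      exact ⟨-1, 1, by ring⟩
    obtain ⟨u, v, huv⟩ := hcop
    set d : ℤ := (m * u) % ((N : ℤ) + 1) with hd
    have hM : (0 : ℤ) < (N : ℤ) + 1 := by positivity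
    have hd0 : 0 ≤ d := Int.emod_nonneg _ hM.ne'
    have hd1 : d < (N : ℤ) + 1 := Int.emod_lt_of_pos _ hM
    have hdvd : ((N : ℤ) + 1) ∣ m - d * (N : ℤ) ^ (n + 1) := by
      have e1 : m - d * (N : ℤ) ^ (n + 1) =
          m * (u * (N : ℤ) ^ (n + 1) + v * ((N : ℤ) + 1)) - d * (N : ℤ) ^ (n + 1) := by
        rw [huv, mul_one]
      have e2 : (m * u) = ((N : ℤ) + 1) * ((m * u) / ((N : ℤ) + 1)) + d := by
        rw [hd]; exact (Int.mul_ediv_add_emod _ _).symm
      refine ⟨(m * u) / ((N : ℤ) + 1) * (N : ℤ) ^ (n + 1) + m * v, ?_⟩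
      rw [e1]
      have e3 : m * (u * (N : ℤ) ^ (n + 1) + v * ((N : ℤ) + 1)) =
          (m * u) * (N : ℤ) ^ (n + 1) + m * v * ((N : ℤ) + 1) := by ring
      rw [e3]
      nth_rewrite 1 [e2]
      ring
    obtain ⟨m', hm'⟩ := hdvd
    have hNn : (0 : ℤ) ≤ (N : ℤ) ^ (n + 1) := by positivity
    have hb1 : (N : ℤ) ^ 2 * (((N : ℤ) + 1) ^ n - (N : ℤ) ^ n) ≤ m' := by
      have e1 : ((N : ℤ) + 1) * ((N : ℤ) ^ 2 * (((N : ℤ) + 1) ^ n - (N : ℤ) ^ n)) =
          (N : ℤ) ^ 2 * (((N : ℤ) + 1) ^ (n + 1) - (N : ℤ) ^ (n + 1)) -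
            (N : ℤ) * (N : ℤ) ^ (n + 1) := by ring
      have e2 : d * (N : ℤ) ^ (n + 1) ≤ (N : ℤ) * (N : ℤ) ^ (n + 1) :=
        mul_le_mul_of_nonneg_right (by linarith) hNn
      have e3 : ((N : ℤ) + 1) * ((N : ℤ) ^ 2 * (((N : ℤ) + 1) ^ n - (N : ℤ) ^ n)) ≤
          ((N : ℤ) + 1) * m' := by
        rw [e1, ← hm']
        linarith
      exact le_of_mul_le_mul_left e3 hM
    have hb2 : m' ≤ (LL N : ℤ) * ((N : ℤ) + 1) ^ n := by
      have e3 : ((N : ℤ) + 1) * m' ≤ ((N : ℤ) + 1) * ((LL N : ℤ) * ((N : ℤ) + 1) ^ n) := by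
        rw [← hm']
        have e4 : ((N : ℤ) + 1) * ((LL N : ℤ) * ((N : ℤ) + 1) ^ n) =
            (LL N : ℤ) * ((N : ℤ) + 1) ^ (n + 1) := by ring
        rw [e4]
        have := mul_nonneg hd0 hNn
        linarith
      exact le_of_mul_le_mul_left e3 hM
    obtain ⟨a, ha1, ha2, ha3⟩ := ih m' hb1 hb2
    obtain ⟨k, hk⟩ := Int.eq_ofNat_of_zero_le hd0
    have hkN : k ≤ N := by
      rw [hk] at hd1
      have : (k : ℤ) < (N : ℤ) + 1 := hd1
      omega
    have hkL : k ≤ LL N := by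
      refine hkN.trans ?_
      unfold LL
      nlinarith [Nat.zero_le N]
    refine ⟨a ++ [⟨k, by omega⟩], by simp [ha1], ?_, ?_⟩
    · intro i hi
      simp only [List.mem_append, List.mem_singleton] at hi
      rcases hi with hi | hi
      · exact ha2 i hi
      · subst hi
        exact hkL
    · rw [wordMap_append, word_affine a ha2, ha3, ha1]
      simp only [wordMap, Function.comp_apply, id]
      rw [phi_of_le (by exact hkL)]
      have hM' : ((N : ℝ) + 1) ≠ 0 := by positivity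
      have hmr : (m : ℝ) = ((N : ℝ) + 1) * m' + k * (N : ℝ) ^ (n + 1) := by
        have : m = ((N : ℤ) + 1) * m' + k * (N : ℤ) ^ (n + 1) := by
          have h5 : m - (k : ℤ) * (N : ℤ) ^ (n + 1) = ((N : ℤ) + 1) * m' := by
            rw [← hm', hk]
          linarith
        rw [this]
        push_cast
        ring
      rw [hmr]
      unfold r
      rw [div_pow]
      field_simp
      ring


/-- `x` is approximated at the rate `(N+1)^{-n}` by words of length `n + j`. -/
def Good (N : ℕ) (x : ℝ) : Prop :=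
  ∃ (c : ℝ) (j : ℕ), ∀ n : ℕ, ∃ a : List (Fin (LL N + 2)), a.length = n + j ∧
    |x - wordMap (phi N) a 0| ≤ c / ((N : ℝ) + 1) ^ n

lemma good_mid {y : ℝ} (h1 : (N : ℝ) ^ 2 ≤ y) (h2 : y ≤ LL N) : Good N y := by
  refine ⟨1, 1, fun n => ?_⟩
  have hM : (0 : ℝ) < ((N : ℝ) + 1) ^ n := by positivity
  obtain ⟨a, ha1, -, ha3⟩ := exists_word (N := N) n ⌊y * ((N : ℝ) + 1) ^ n⌋
    (by
      apply Int.le_floor.2
      push_cast
      have : (0 : ℝ) ≤ (N : ℝ) ^ 2 * (N : ℝ) ^ n := by positivity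
      nlinarith)
    (by
      have h3 : ((⌊y * ((N : ℝ) + 1) ^ n⌋ : ℤ) : ℝ) ≤ ((LL N : ℤ) * ((N : ℤ) + 1) ^ n : ℤ) := by
        refine (Int.floor_le _).trans ?_
        push_cast
        exact mul_le_mul_of_nonneg_right h2 hM.le
      exact_mod_cast h3)
  refine ⟨a, ha1, ?_⟩
  rw [ha3]
  have h4 := Int.floor_le (y * ((N : ℝ) + 1) ^ n)
  have h5 := Int.lt_floor_add_one (y * ((N : ℝ) + 1) ^ n)
  have h6 : y - (⌊y * ((N : ℝ) + 1) ^ n⌋ : ℝ) / ((N : ℝ) + 1) ^ n =
      (y * ((N : ℝ) + 1) ^ n - ⌊y * ((N : ℝ) + 1) ^ n⌋) / ((N : ℝ) + 1) ^ n := by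
    field_simp
  rw [h6, abs_div, abs_of_pos hM]
  apply div_le_div_of_nonneg_right _ hM.le
  rw [abs_of_nonneg (by linarith)]
  linarith

lemma good_phi (hN : 1 ≤ N) {x : ℝ} (h : Good N x) (i : Fin (LL N + 2)) : Good N (phi N i x) := by
  obtain ⟨c, j, hc⟩ := h
  refine ⟨c, j + 1, fun n => ?_⟩
  obtain ⟨a, ha1, ha2⟩ := hc n
  refine ⟨i :: a, by simp [ha1]; ring, ?_⟩
  simp only [wordMap, Function.comp_apply]
  rw [phi_sub, abs_of_pos (r_pos hN)]
  have h1 : 0 ≤ |x - wordMap (phi N) a 0| := abs_nonneg _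
  have h2 := r_lt (N := N)
  nlinarith [r_pos hN]

lemma good_zero : Good N 0 := by
  refine ⟨0, 0, fun n => ⟨List.replicate n ⟨0, by omega⟩, by simp, ?_⟩⟩
  have : wordMap (phi N) (List.replicate n ⟨0, by omega⟩) 0 = 0 := by
    induction n with
    | zero => simp [wordMap]
    | succ n ih =>
      simp only [List.replicate_succ, wordMap, Function.comp_apply, ih]
      rw [phi_of_le (by simp)]
      simp
  rw [this]
  simp

lemma good_top (hN : 1 ≤ N) : Good N (((N : ℝ) + 1) * LL N) := by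
  have h := good_phi hN (good_zero (N := N)) ⟨LL N + 1, by omega⟩
  have : phi N ⟨LL N + 1, by omega⟩ 0 = ((N : ℝ) + 1) * LL N := by
    unfold phi
    rw [if_neg (by simp)]
    simp
  rwa [this] at h

lemma LL_cast : ((LL N : ℕ) : ℝ) = ((N : ℝ) + 1) * N := by unfold LL; push_cast; ring

lemma good_low (hN : 1 ≤ N) (k : ℕ) : ∀ x : ℝ, (N : ℝ) ^ 2 * r N ^ k ≤ x → x ≤ LL N → Good N x := by
  induction k with
  | zero =>
    intro x h1 h2
    exact good_mid (by simpa using h1) h2
  | succ k ih =>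
    intro x h1 h2
    rcases le_or_gt ((N : ℝ) ^ 2) x with h3 | h3
    · exact good_mid h3 h2
    · have hr := r_pos hN
      have hN' : (1 : ℝ) ≤ N := by exact_mod_cast hN
      have h4 : Good N (x / r N) := by
        apply ih
        · rw [le_div_iff₀ hr, mul_assoc, ← pow_succ]
          exact h1
        · rw [div_le_iff₀ hr, LL_cast]
          unfold r
          have : ((N : ℝ) + 1) * N * (N / (N + 1)) = (N : ℝ) ^ 2 := by field_simp
          rw [this]
          exact h3.le
      have h5 := good_phi hN h4 ⟨0, by omega⟩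
      rw [phi_of_le (by simp)] at h5
      have h6 : r N * (x / r N) + ((0 : ℕ) : ℝ) = x := by
        field_simp
        simp
      rw [← h6]
      exact h5

lemma good_upto (hN : 1 ≤ N) {x : ℝ} (h1 : 0 ≤ x) (h2 : x ≤ LL N) : Good N x := by
  rcases h1.eq_or_lt with h | h
  · rw [← h]; exact good_zero
  · have hN' : (1 : ℝ) ≤ N := by exact_mod_cast hN
    obtain ⟨k, hk⟩ := exists_pow_lt_of_lt_one (show 0 < x / (N : ℝ) ^ 2 by positivity)
      (r_lt (N := N))
    refine good_low hN k x ?_ h2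
    rw [lt_div_iff₀ (by positivity)] at hk
    linarith

lemma good_high (hN : 1 ≤ N) (k : ℕ) : ∀ x : ℝ, 0 ≤ x →
    (N : ℝ) * LL N * r N ^ k ≤ ((N : ℝ) + 1) * LL N - x → Good N x := by
  induction k with
  | zero =>
    intro x h1 h2
    refine good_upto hN h1 ?_
    simp only [pow_zero, mul_one] at h2
    linarith
  | succ k ih =>
    intro x h1 h2
    rcases le_or_gt x (LL N) with h3 | h3
    · exact good_upto hN h1 h3
    · have hr := r_pos hN
      have hrN : r N * ((N : ℝ) + 1) = N := by unfold r; field_simp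
      have h4 : Good N ((x - LL N) / r N) := by
        apply ih
        · exact div_nonneg (by linarith) hr.le
        · have h7 : ((N : ℝ) + 1) * LL N - (x - LL N) / r N =
              (((N : ℝ) + 1) * LL N - x) / r N := by
            rw [eq_div_iff hr.ne', sub_mul, div_mul_cancel₀ _ hr.ne']
            have : ((N : ℝ) + 1) * LL N * r N = N * LL N := by
              rw [show ((N : ℝ) + 1) * LL N * r N = (r N * (N + 1)) * LL N by ring, hrN]
            rw [this]
            ring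
          rw [h7, le_div_iff₀ hr, mul_assoc, ← pow_succ]
          exact h2
      have h5 := good_phi hN h4 ⟨LL N, by omega⟩
      rw [phi_of_le (by simp)] at h5
      have h6 : r N * ((x - LL N) / r N) + (LL N : ℝ) = x := by
        rw [mul_div_cancel₀ _ hr.ne']
        ring
      simpa [h6] using h5

lemma good_all (hN : 1 ≤ N) {x : ℝ} (hx : x ∈ XX N) : Good N x := by
  obtain ⟨h1, h2⟩ := hx
  rcases h2.eq_or_lt with h | h
  · rw [h]; exact good_top hN
  · have hN' : (1 : ℝ) ≤ N := by exact_mod_cast hN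
    have hL : (0 : ℝ) < LL N := by rw [LL_cast]; positivity
    obtain ⟨k, hk⟩ := exists_pow_lt_of_lt_one
      (show 0 < (((N : ℝ) + 1) * LL N - x) / ((N : ℝ) * LL N) by
        apply div_pos (by linarith) (by positivity))
      (r_lt (N := N))
    refine good_high hN k x h1 ?_
    rw [lt_div_iff₀ (by positivity)] at hk
    linarith

lemma diam_word (hN : 1 ≤ N) (a : List (Fin (LL N + 2))) :
    Metric.diam (wordMap (phi N) a '' XX N) = r N ^ a.length * (((N : ℝ) + 1) * LL N) := by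
  have hr := r_pos hN
  have hL : (0 : ℝ) ≤ ((N : ℝ) + 1) * LL N := by positivity
  apply le_antisymm
  · apply Metric.diam_le_of_forall_dist_le (by positivity)
    rintro _ ⟨x, hx, rfl⟩ _ ⟨y, hy, rfl⟩
    rw [Real.dist_eq, word_sub, abs_of_pos hr]
    apply mul_le_mul_of_nonneg_left _ (by positivity)
    rw [abs_le]
    constructor <;> linarith [hx.1, hx.2, hy.1, hy.2]
  · have h1 : (0 : ℝ) ∈ XX N := ⟨le_refl _, hL⟩
    have h2 : (((N : ℝ) + 1) * LL N) ∈ XX N := ⟨hL, le_refl _⟩
    have h3 := word_sub a (((N : ℝ) + 1) * LL N) 0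
    rw [abs_of_pos hr, sub_zero, abs_of_nonneg hL] at h3
    rw [← h3, ← Real.dist_eq]
    apply Metric.dist_le_diam_of_mem _ (mem_image_of_mem _ h2) (mem_image_of_mem _ h1)
    have hb : Bornology.IsBounded (XX N) := Metric.isBounded_Icc _ _
    have hlip : LipschitzWith (⟨r N ^ a.length, by positivity⟩ : NNReal) (wordMap (phi N) a) := by
      apply LipschitzWith.of_dist_le_mul
      intro x y
      rw [Real.dist_eq, word_sub, abs_of_pos hr, Real.dist_eq]
      rfl
    exact hlip.isBounded_image hb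

lemma phi_mem (hN : 1 ≤ N) (i : Fin (LL N + 2)) {x : ℝ} (hx : x ∈ XX N) : phi N i x ∈ XX N := by
  have hr := r_pos hN
  have hrN : r N * ((N : ℝ) + 1) = N := by unfold r; field_simp
  obtain ⟨h1, h2⟩ := hx
  have h3 : r N * x ≤ N * LL N := by
    calc r N * x ≤ r N * (((N : ℝ) + 1) * LL N) := mul_le_mul_of_nonneg_left h2 hr.le
      _ = N * LL N := by rw [← mul_assoc, hrN]
  have h4 : 0 ≤ r N * x := mul_nonneg hr.le h1
  have hL : (0 : ℝ) ≤ LL N := by positivity
  unfold phi
  split_ifs with h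
  · have h5 : ((i : ℕ) : ℝ) ≤ LL N := by exact_mod_cast h
    have h6 : (0 : ℝ) ≤ (i : ℕ) := by positivity
    constructor <;> linarith
  · constructor <;> linarith

lemma word_mem (hN : 1 ≤ N) (a : List (Fin (LL N + 2))) {x : ℝ} (hx : x ∈ XX N) :
    wordMap (phi N) a x ∈ XX N := by
  induction a with
  | nil => simpa [wordMap] using hx
  | cons i a ih => exact phi_mem hN i ih

lemma isAttractor (hN : 1 ≤ N) : IsAttractor (phi N) (XX N) := by
  have hr := r_pos hN
  have hrN : r N * ((N : ℝ) + 1) = N := by unfold r; field_simp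
  have hN' : (1 : ℝ) ≤ N := by exact_mod_cast hN
  have hL : (0 : ℝ) < LL N := by rw [LL_cast]; positivity
  have hL1 : (1 : ℝ) ≤ LL N := by rw [LL_cast]; nlinarith
  refine ⟨⟨0, le_refl _, by positivity⟩, isCompact_Icc, ?_⟩
  apply Subset.antisymm
  · intro x hx
    obtain ⟨h1, h2⟩ := hx
    rw [mem_iUnion]
    rcases le_or_gt x (LL N) with h | h
    · -- use the floor
      have hf0 : 0 ≤ ⌊x⌋ := Int.floor_nonneg.2 h1
      obtain ⟨k, hk⟩ := Int.eq_ofNat_of_zero_le hf0
      have hk1 : (k : ℝ) ≤ x := by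
        have := Int.floor_le x
        rw [hk] at this
        exact_mod_cast this
      have hk2 : x < k + 1 := by
        have := Int.lt_floor_add_one x
        rw [hk] at this
        exact_mod_cast this
      have hkL : k ≤ LL N := by
        have : (k : ℝ) ≤ LL N := hk1.trans h
        exact_mod_cast this
      refine ⟨⟨k, by omega⟩, (x - k) / r N, ⟨div_nonneg (by linarith) hr.le, ?_⟩, ?_⟩
      · rw [div_le_iff₀ hr]
        have : ((N : ℝ) + 1) * LL N * r N = N * LL N := by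
          rw [show ((N : ℝ) + 1) * LL N * r N = (r N * (N + 1)) * LL N by ring, hrN]
        rw [this]
        nlinarith
      · rw [phi_of_le (by exact hkL)]
        simp only
        rw [mul_div_cancel₀ _ hr.ne']
        ring
    · refine ⟨⟨LL N, by omega⟩, (x - LL N) / r N, ⟨div_nonneg (by linarith) hr.le, ?_⟩, ?_⟩
      · rw [div_le_iff₀ hr]
        have : ((N : ℝ) + 1) * LL N * r N = N * LL N := by
          rw [show ((N : ℝ) + 1) * LL N * r N = (r N * (N + 1)) * LL N by ring, hrN]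
        rw [this]
        linarith
      · rw [phi_of_le (by simp)]
        simp only
        rw [mul_div_cancel₀ _ hr.ne']
        ring
  · intro x hx
    rw [mem_iUnion] at hx
    obtain ⟨i, y, hy, rfl⟩ := hx
    exact phi_mem hN i hy

lemma isIFS (hN : 1 ≤ N) : IsIFS (phi N) := by
  have hr := r_pos hN
  refine ⟨by omega, fun i => ⟨?_, ⟨r N, hr.le⟩, ?_, ?_⟩⟩
  · intro x y hxy
    have h := phi_sub i x y
    rw [hxy, sub_self, abs_zero] at h
    have h2 : |x - y| = 0 := by
      rcases mul_eq_zero.1 h.symm with h3 | h3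
      · exact absurd (abs_eq_zero.1 h3) hr.ne'
      · exact h3
    exact sub_eq_zero.1 (abs_eq_zero.1 h2)
  · exact_mod_cast r_lt (N := N)
  · apply LipschitzWith.of_dist_le_mul
    intro x y
    rw [Real.dist_eq, phi_sub, abs_of_pos hr, Real.dist_eq]
    rfl

lemma W_sub (hN : 1 ≤ N) {s : ℝ} (hs : 0 < s) : W (phi N) (XX N) 0 s ⊆ XX N := by
  intro x hx
  have hr := r_pos hN
  have hL : (0 : ℝ) ≤ ((N : ℝ) + 1) * LL N := by positivity
  have h0 : (0 : ℝ) ∈ XX N := ⟨le_refl _, hL⟩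
  have hcl : IsClosed (XX N) := isClosed_Icc
  rw [← hcl.closure_eq, Metric.mem_closure_iff]
  intro ε hε
  have hlim : Tendsto (fun n : ℕ => (r N ^ n * (((N : ℝ) + 1) * LL N)) ^ s) atTop (𝓝 0) := by
    have h1 : Tendsto (fun n : ℕ => r N ^ n * (((N : ℝ) + 1) * LL N)) atTop (𝓝 0) := by
      have := (tendsto_pow_atTop_nhds_zero_of_lt_one hr.le (r_lt (N := N))).mul_const
        (((N : ℝ) + 1) * LL N)
      simpa using this
    have h2 := h1.rpow_const (p := s) (Or.inr hs.le)
    rwa [Real.zero_rpow hs.ne'] at h2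
  obtain ⟨n0, hn0⟩ := (eventually_atTop.1 (hlim.eventually (gt_mem_nhds hε)))
  have hfin : {a : List (Fin (LL N + 2)) | a.length < n0}.Finite :=
    List.finite_length_lt _ _
  obtain ⟨a, ha, ha'⟩ := (Set.Infinite.sdiff hx hfin).nonempty
  refine ⟨wordMap (phi N) a 0, word_mem hN a h0, ?_⟩
  rw [Real.dist_eq]
  refine lt_of_le_of_lt ha ?_
  rw [diam_word hN]
  exact hn0 _ (not_lt.1 ha')

lemma good_W (hN : 1 ≤ N) {s : ℝ} (hs : 1 < ((N : ℝ) + 1) * r N ^ s) {x : ℝ}
    (hx : Good N x) : x ∈ W (phi N) (XX N) 0 s := by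
  obtain ⟨c, j, hc⟩ := hx
  choose a ha1 ha2 using hc
  have hr := r_pos hN
  have hN' : (1 : ℝ) ≤ N := by exact_mod_cast hN
  have hL : (0 : ℝ) < LL N := by rw [LL_cast]; positivity
  set q : ℝ := ((N : ℝ) + 1) * r N ^ s with hq
  have hlim : Tendsto (fun n : ℕ => q ^ n * (r N ^ j * (((N : ℝ) + 1) * LL N)) ^ s)
      atTop atTop := by
    apply Tendsto.atTop_mul_const (by positivity)
    exact tendsto_pow_atTop_atTop_of_one_lt hs
  obtain ⟨n0, hn0⟩ := eventually_atTop.1 (hlim.eventually (eventually_ge_atTop c))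
  apply Set.infinite_of_injective_forall_mem (f := fun n => a (n + n0))
  · intro m n hmn
    have := congrArg List.length hmn
    simp only [ha1] at this
    omega
  · intro n
    show |x - wordMap (phi N) (a (n + n0)) 0| ≤
      Metric.diam (wordMap (phi N) (a (n + n0)) '' XX N) ^ s
    refine (ha2 _).trans ?_
    rw [diam_word hN, ha1]
    have h1 := hn0 (n + n0) (by omega)
    have hM : (0 : ℝ) < ((N : ℝ) + 1) ^ (n + n0) := by positivity
    rw [div_le_iff₀ hM]
    refine h1.trans (le_of_eq ?_)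
    rw [hq, mul_pow, pow_add (r N) (n + n0) j, mul_assoc (r N ^ (n + n0)),
      Real.mul_rpow (by positivity : (0 : ℝ) ≤ r N ^ (n + n0)) (by positivity),
      ← Real.rpow_natCast (r N ^ s), ← Real.rpow_natCast (r N) (n + n0),
      ← Real.rpow_mul hr.le, ← Real.rpow_mul hr.le, mul_comm s]
    ring

lemma exists_N (s : ℝ) : ∃ N : ℕ, 1 ≤ N ∧ 1 < ((N : ℝ) + 1) * r N ^ s := by
  have h1 : Tendsto (fun n : ℕ => r n) atTop (𝓝 1) := tendsto_natCast_div_add_atTop 1
  have h2 : Tendsto (fun n : ℕ => r n ^ s) atTop (𝓝 1) := by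
    have := h1.rpow_const (p := s) (Or.inl one_ne_zero)
    rwa [Real.one_rpow] at this
  have h3 : Tendsto (fun n : ℕ => (n : ℝ) + 1) atTop atTop :=
    tendsto_atTop_add_const_right _ _ tendsto_natCast_atTop_atTop
  have h4 : Tendsto (fun n : ℕ => ((n : ℝ) + 1) * r n ^ s) atTop atTop :=
    h3.atTop_mul_pos one_pos h2
  obtain ⟨N, hN1, hN2⟩ := ((h4.eventually (eventually_gt_atTop 1)).and
    (eventually_ge_atTop 1)).exists
  exact ⟨N, hN2, hN1⟩

end construction

/-- For every exponent `s > 0` there is an iterated function system on the line, consisting of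
similarities with one common ratio `ρ < 1`, with attractor `X` having more than one point, and a
point `z ∈ X` with `W_s(z) = X`. -/
theorem result : ∀ s : ℝ, 0 < s → ∃ (l : ℕ) (φ : Fin l → ℝ → ℝ) (X : Set ℝ) (z : ℝ),
    IsIFS φ ∧ IsAttractor φ X ∧ X.Nontrivial ∧ z ∈ X ∧
    (∃ ρ : ℝ, 0 < ρ ∧ ρ < 1 ∧ ∀ i x y, |φ i x - φ i y| = ρ * |x - y|) ∧
    W φ X z s = X := by
  intro s hs
  obtain ⟨N, hN, hNs⟩ := exists_N s
  have hN' : (1 : ℝ) ≤ N := by exact_mod_cast hN
  have hL : (0 : ℝ) < ((N : ℝ) + 1) * LL N := by rw [LL_cast]; positivity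
  refine ⟨LL N + 2, phi N, XX N, 0, isIFS hN, isAttractor hN, ?_, ⟨le_refl _, hL.le⟩,
    ⟨r N, r_pos hN, r_lt, ?_⟩, ?_⟩
  · exact ⟨0, ⟨le_refl _, hL.le⟩, _, ⟨hL.le, le_refl _⟩, hL.ne⟩
  · intro i x y
    rw [phi_sub, abs_of_pos (r_pos hN)]
  · exact Subset.antisymm (W_sub hN hs) (fun x hx => good_W hN hNs (good_all hN hx))

end Pool.Agent.Results.MP_521650_an.FullApproximation
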